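import Pool.Agent.Helper45.PQ.StB

/-!
# Module XZ of project PQ (MP_a1f43d_co): an isolating singular vector
-/

set_option autoImplicit false

open Module Classical
open scoped LinearAlgebra.Projectivization

namespace Pool.Agent.Helper97.PQ

open Pool.Agent.Helper45.PQ

universe u v

section

variable {F : Type u} {V : Type v} [Field F] [AddCommGroup V] [Module F V]

private theorem quad_roots [Fintype F] (a b c : F) (ha : a ≠ 0) :
    (Finset.univ.filter (fun t : F => a * t * t + b * t + c = 0)).card ≤ 2 := by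
  by_contra h
  push Not at h
  obtain ⟨x, hx, y, hy, z, hz, hxy, hxz, hyz⟩ := Finset.two_lt_card.1 h
  simp only [Finset.mem_filter, Finset.mem_univ, true_and] at hx hy hz
  have h1 : (x - y) * (a * (x + y) + b) = 0 := by linear_combination hx - hy
  have h2 : (x - z) * (a * (x + z) + b) = 0 := by linear_combination hx - hz
  have h1' := (mul_eq_zero.1 h1).resolve_left (sub_ne_zero.2 hxy)
  have h2' := (mul_eq_zero.1 h2).resolve_left (sub_ne_zero.2 hxz)
  have h3 : a * (y - z) = 0 := by linear_combination h1' - h2'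
  exact hyz (sub_eq_zero.1 ((mul_eq_zero.1 h3).resolve_left ha))

private theorem polar_sub_smul_right (Q : QuadraticForm F V) (x y z : V) (t : F) :
    QuadraticMap.polar Q x (y - t • z) =
      QuadraticMap.polar Q x y - t * QuadraticMap.polar Q x z := by
  rw [sub_eq_add_neg, ← neg_smul, QuadraticMap.polar_add_right, QuadraticMap.polar_smul_right,
    smul_eq_mul, neg_mul, sub_eq_add_neg]

private theorem map_sub_smul' (Q : QuadraticForm F V) (y z : V) (t : F) :
    Q (y - t • z) = Q z * t * t + (-QuadraticMap.polar Q y z) * t + Q y := by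
  rw [sub_eq_add_neg, ← neg_smul, QuadraticMap.map_add Q, QuadraticMap.map_smul,
    QuadraticMap.polar_smul_right, smul_eq_mul, smul_eq_mul]
  ring

/-- Singular vectors `y` of a subspace of dimension 6 with `f r₁ y = 1`. -/
private theorem aff_bound [Fintype F] [Fintype V] [FiniteDimensional F V] (Q : QuadraticForm F V)
    (mx : ∀ U : Submodule F V, (∀ x ∈ U, Q x = 0) → finrank F U ≤ 4) (W : Submodule F V)
    (hW : finrank F W = 6) (r₁ : V) :
    (Finset.univ.filter (fun y : V => y ∈ W ∧ Q y = 0 ∧ QuadraticMap.polar Q r₁ y = 1)).card ≤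
      2 * Nat.card F ^ 4 := by
  obtain ⟨T1, hT1⟩ : ∃ T1 : Finset V, T1 = Finset.univ.filter
    (fun y : V => y ∈ W ∧ Q y = 0 ∧ QuadraticMap.polar Q r₁ y = 1) := ⟨_, rfl⟩
  obtain ⟨T2, hT2⟩ : ∃ T2 : Finset V, T2 = Finset.univ.filter
    (fun y : V => y ∈ W ∧ QuadraticMap.polar Q r₁ y = 1) := ⟨_, rfl⟩
  rw [← hT1]
  have m1 : ∀ y, y ∈ T1 ↔ y ∈ W ∧ Q y = 0 ∧ QuadraticMap.polar Q r₁ y = 1 := by
    intro y
    rw [hT1, Finset.mem_filter, and_iff_right (Finset.mem_univ _)]
  have m2 : ∀ y, y ∈ T2 ↔ y ∈ W ∧ QuadraticMap.polar Q r₁ y = 1 := by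
    intro y
    rw [hT2, Finset.mem_filter, and_iff_right (Finset.mem_univ _)]
  have hsub : T1 ⊆ T2 := by
    intro y hy
    exact (m2 y).2 ⟨((m1 y).1 hy).1, ((m1 y).1 hy).2.2⟩
  rcases T2.eq_empty_or_nonempty with he | ⟨y0, hy0⟩
  · rw [he, Finset.subset_empty] at hsub
    rw [hsub]
    simp
  obtain ⟨hy0W, hy01⟩ := (m2 y0).1 hy0
  have hnot : ¬ W ≤ LinearMap.ker (QuadraticMap.polarBilin Q r₁) := by
    intro hle
    have h1 : QuadraticMap.polar Q r₁ y0 = 0 := hle hy0W
    rw [hy01] at h1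
    exact one_ne_zero h1
  have hfr := Pool.Agent.Helper53.PB.Polar.finrank_inf_ker W (QuadraticMap.polarBilin Q r₁) hnot
  have hfr5 : finrank F (W ⊓ prp Q r₁ : Submodule F V) = 5 := by
    have h1 : finrank F (W ⊓ prp Q r₁ : Submodule F V) + 1 = finrank F W := hfr
    omega
  obtain ⟨v, hv, hQv⟩ : ∃ v ∈ (W ⊓ prp Q r₁ : Submodule F V), Q v ≠ 0 := by
    by_contra hcon
    push Not at hcon
    have h1 := mx _ hcon
    omega
  have hvW : v ∈ W := hv.1
  have hv0 : QuadraticMap.polar Q r₁ v = 0 := hv.2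
  have hc2 : T2.card ≤ Nat.card F ^ 5 := by
    have h1 : T2 ⊆ (Finset.univ.filter (fun x : V => x ∈ (W ⊓ prp Q r₁ : Submodule F V))).image
        (fun x => y0 + x) := by
      intro y hy
      obtain ⟨hyW, hy1⟩ := (m2 y).1 hy
      rw [Finset.mem_image]
      refine ⟨y - y0, ?_, by abel⟩
      rw [Finset.mem_filter, and_iff_right (Finset.mem_univ _)]
      refine ⟨W.sub_mem hyW hy0W, ?_⟩
      change QuadraticMap.polar Q r₁ (y - y0) = 0
      rw [QuadraticMap.polar_sub_right, hy1, hy01, sub_self]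
    refine (Finset.card_le_card h1).trans (Finset.card_image_le.trans ?_)
    have h2 : (Finset.univ.filter (fun x : V => x ∈ (W ⊓ prp Q r₁ : Submodule F V))).card =
        Nat.card (W ⊓ prp Q r₁ : Submodule F V) := by
      rw [Nat.card_eq_fintype_card]
      exact (Fintype.card_subtype _).symm
    rw [h2, Module.natCard_eq_pow_finrank (K := F), hfr5]
  have hprod : (T1 ×ˢ (Finset.univ : Finset F)).card ≤ 2 * T2.card := by
    refine Finset.card_le_mul_card_image_of_maps_to (f := fun p : V × F => p.1 + p.2 • v) ?_ 2 ?_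
    · rintro ⟨y, t⟩ hy
      rw [Finset.mem_product] at hy
      obtain ⟨hyW, -, hy1⟩ := (m1 y).1 hy.1
      refine (m2 _).2 ⟨W.add_mem hyW (W.smul_mem t hvW), ?_⟩
      simp only
      rw [QuadraticMap.polar_add_right, QuadraticMap.polar_smul_right, hv0, hy1, smul_zero,
        add_zero]
    · intro b hb
      refine le_trans ?_ (quad_roots (Q v) (-QuadraticMap.polar Q b v) (Q b) hQv)
      refine Finset.card_le_card_of_injOn (fun p => p.2) ?_ ?_
      · rintro ⟨y, t⟩ hy
        rw [Finset.coe_filter, Set.mem_ofPred_eq, Finset.mem_product] at hy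
        obtain ⟨⟨hy1, -⟩, hy2⟩ := hy
        simp only at hy1 hy2
        rw [Finset.coe_filter, Set.mem_ofPred_eq]
        refine ⟨Finset.mem_univ _, ?_⟩
        simp only
        rw [← map_sub_smul', ← hy2, add_sub_cancel_right]
        exact ((m1 y).1 hy1).2.1
      · rintro ⟨y, t⟩ hy ⟨y', t'⟩ hy' htt
        rw [Finset.coe_filter, Set.mem_ofPred_eq] at hy hy'
        simp only at htt hy hy'
        subst htt
        have h1 : y = y' := by
          have h2 := hy.2.trans hy'.2.symm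
          exact add_right_cancel h2
        rw [h1]
  rw [Finset.card_product, Finset.card_univ, ← Nat.card_eq_fintype_card] at hprod
  have hq : 0 < Nat.card F := Nat.card_pos
  have h1 : T1.card * Nat.card F ≤ 2 * Nat.card F ^ 4 * Nat.card F := by
    calc T1.card * Nat.card F ≤ 2 * T2.card := hprod
      _ ≤ 2 * Nat.card F ^ 5 := Nat.mul_le_mul_left _ hc2
      _ = 2 * Nat.card F ^ 4 * Nat.card F := by ring
  exact Nat.le_of_mul_le_mul_right h1 hq

end

theorem hXZ (h1 : StCNT.{u, v}) : StXZ.{u, v} := by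
  intro F _ _ V _ _ _ _ Q R S Z A B qd hR hS hRS hZ hRA hSB hcard
  have : Fintype F := Fintype.ofFinite F
  have : Fintype V := Fintype.ofFinite V
  obtain ⟨r, hr⟩ : ∃ r, r = R.rep := ⟨_, rfl⟩
  obtain ⟨s, hs⟩ : ∃ s, s = S.rep := ⟨_, rfl⟩
  rw [← hr] at hR hRS
  rw [← hs] at hS hRS
  have hSR : QuadraticMap.polar Q s r ≠ 0 := by rwa [QuadraticMap.polar_comm]
  have hrr : QuadraticMap.polar Q r r = 0 := by rw [polar_self_two, hR, mul_zero]
  have hss : QuadraticMap.polar Q s s = 0 := by rw [polar_self_two, hS, mul_zero]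
  -- the subspace L
  obtain ⟨L, hL⟩ : ∃ L : Submodule F V, L = prp Q r ⊓ prp Q s := ⟨_, rfl⟩
  have mL : ∀ x, x ∈ L ↔ QuadraticMap.polar Q r x = 0 ∧ QuadraticMap.polar Q s x = 0 := by
    intro x
    rw [hL]
    exact Iff.rfl
  have hL7 : finrank F L = 7 := by
    have h2 : ¬ (⊤ : Submodule F V) ≤ LinearMap.ker (QuadraticMap.polarBilin Q r) :=
      fun h => hRS (h (Submodule.mem_top (x := s)))
    have h3 := Pool.Agent.Helper53.PB.Polar.finrank_inf_ker ⊤ (QuadraticMap.polarBilin Q r) h2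
    rw [top_inf_eq, finrank_top, qd.hd] at h3
    have h4 : ¬ LinearMap.ker (QuadraticMap.polarBilin Q r) ≤
        LinearMap.ker (QuadraticMap.polarBilin Q s) := by
      intro h
      have h5 : r ∈ LinearMap.ker (QuadraticMap.polarBilin Q r) := hrr
      exact hSR (h h5)
    have h5 := Pool.Agent.Helper53.PB.Polar.finrank_inf_ker _ (QuadraticMap.polarBilin Q s) h4
    have h6 : finrank F L + 1 = finrank F (LinearMap.ker (QuadraticMap.polarBilin Q r)) := by
      rw [hL]
      exact h5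
    omega
  -- decomposition
  have hdec : ∀ y : V, y - (QuadraticMap.polar Q s y / QuadraticMap.polar Q s r) • r -
      (QuadraticMap.polar Q r y / QuadraticMap.polar Q r s) • s ∈ L := by
    intro y
    rw [mL, polar_sub_smul_right, polar_sub_smul_right, polar_sub_smul_right,
      polar_sub_smul_right, hrr, hss, div_mul_cancel₀ _ hRS, div_mul_cancel₀ _ hSR]
    simp
  -- a vector of L perpendicular to L is zero
  have hnd : ∀ x ∈ L, (∀ y ∈ L, QuadraticMap.polar Q x y = 0) → x = 0 := by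
    intro x hx h
    apply qd.nd
    intro y
    have h2 := h _ (hdec y)
    obtain ⟨h3, h4⟩ := (mL x).1 hx
    rw [polar_sub_smul_right, polar_sub_smul_right, QuadraticMap.polar_comm Q x r, h3,
      QuadraticMap.polar_comm Q x s, h4] at h2
    simpa using h2
  -- a nonzero singular vector of L
  obtain ⟨r₁, hr₁L, hr₁0, hQr₁⟩ : ∃ r₁ ∈ L, r₁ ≠ 0 ∧ Q r₁ = 0 := by
    obtain ⟨G, hG1, hG2, hG3⟩ := qd.ext (Submodule.span F {r}) (by
      intro x hx
      obtain ⟨c, rfl⟩ := Submodule.mem_span_singleton.1 hx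
      rw [QuadraticMap.map_smul, hR, smul_zero])
    have h2 := Pool.Agent.Helper53.PB.Polar.finrank_le_inf_ker G (QuadraticMap.polarBilin Q s)
    have h3 : (G ⊓ LinearMap.ker (QuadraticMap.polarBilin Q s) : Submodule F V) ≠ ⊥ := by
      intro h4
      rw [h4, finrank_bot] at h2
      omega
    obtain ⟨x, hx, hx0⟩ := Submodule.exists_mem_ne_zero_of_ne_bot h3
    refine ⟨x, (mL x).2 ⟨?_, hx.2⟩, hx0, hG2 x hx.1⟩
    exact polar_zero hG2 (hG1 (Submodule.mem_span_singleton_self r)) hx.1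
  have hr₁w : ∃ w ∈ L, QuadraticMap.polar Q r₁ w ≠ 0 := by
    by_contra hcon
    push Not at hcon
    exact hr₁0 (hnd r₁ hr₁L hcon)
  -- the points in question
  obtain ⟨Y, hY⟩ : ∃ Y : Finset (ℙ F V), Y = (sp Q L).filter
    (fun y => QuadraticMap.polar Q r₁ y.rep ≠ 0) := ⟨_, rfl⟩
  have mY : ∀ y, y ∈ Y ↔ (y.rep ∈ L ∧ Q y.rep = 0) ∧ QuadraticMap.polar Q r₁ y.rep ≠ 0 := by
    intro y
    rw [hY, Finset.mem_filter, mem_sp]
  have hYc : Y.card = Nat.card F ^ 5 := by
    rw [hY]
    exact h1 F V Q L r₁ 5 hr₁L hQr₁ hr₁w hL7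
  -- the bad points for z
  have hbz : ∀ z ∈ Z, (Y.filter (fun y => QuadraticMap.polar Q z.rep y.rep = 0)).card ≤
      2 * Nat.card F ^ 4 := by
    intro z hz
    obtain ⟨hz1, hz2, hz3⟩ := hZ z hz
    have hnot : ¬ L ≤ LinearMap.ker (QuadraticMap.polarBilin Q z.rep) := by
      intro hle
      have h2 : ∀ y ∈ L, QuadraticMap.polar Q z.rep y = 0 := fun y hy => hle hy
      obtain ⟨α, hα⟩ : ∃ α, α = QuadraticMap.polar Q s z.rep / QuadraticMap.polar Q s r :=
        ⟨_, rfl⟩
      obtain ⟨β, hβ⟩ : ∃ β, β = QuadraticMap.polar Q r z.rep / QuadraticMap.polar Q r s :=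
        ⟨_, rfl⟩
      have h3 := hdec z.rep
      rw [← hα, ← hβ] at h3
      have h4 : z.rep - α • r - β • s = 0 := by
        apply hnd _ h3
        intro y hy
        obtain ⟨h5, h6⟩ := (mL y).1 hy
        rw [QuadraticMap.polar_comm, polar_sub_smul_right, polar_sub_smul_right,
          QuadraticMap.polar_comm Q y z.rep, h2 y hy, QuadraticMap.polar_comm Q y r, h5,
          QuadraticMap.polar_comm Q y s, h6]
        simp
      have h5 : z.rep = α • r + β • s := by
        rw [sub_sub, sub_eq_zero] at h4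
        exact h4
      have h6 : α * β * QuadraticMap.polar Q r s = 0 := by
        rw [h5, QuadraticMap.map_add Q, QuadraticMap.map_smul, QuadraticMap.map_smul, hR, hS,
          QuadraticMap.polar_smul_left, QuadraticMap.polar_smul_right, smul_zero, smul_zero,
          zero_add, zero_add, smul_eq_mul, smul_eq_mul] at hz1
        rw [mul_assoc]
        exact hz1
      rcases mul_eq_zero.1 ((mul_eq_zero.1 h6).resolve_right hRS) with h7 | h7
      · apply hz3
        apply Pool.Agent.Helper53.PB.eq_of_rep_mem_span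
        rw [h5, h7, zero_smul, zero_add, ← hs]
        exact Submodule.smul_mem _ _ (Submodule.mem_span_singleton_self s)
      · apply hz2
        apply Pool.Agent.Helper53.PB.eq_of_rep_mem_span
        rw [h5, h7, zero_smul, add_zero, ← hr]
        exact Submodule.smul_mem _ _ (Submodule.mem_span_singleton_self r)
    have h2 := Pool.Agent.Helper53.PB.Polar.finrank_inf_ker L (QuadraticMap.polarBilin Q z.rep)
      hnot
    have h3 : finrank F (L ⊓ prp Q z.rep : Submodule F V) = 6 := by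
      have h4 : finrank F (L ⊓ prp Q z.rep : Submodule F V) + 1 = finrank F L := h2
      omega
    refine le_trans ?_ (aff_bound Q qd.mx (L ⊓ prp Q z.rep) h3 r₁)
    refine Finset.card_le_card_of_injOn
      (fun y => (QuadraticMap.polar Q r₁ y.rep)⁻¹ • y.rep) ?_ ?_
    · intro y hy
      rw [Finset.coe_filter, Set.mem_ofPred_eq, mY] at hy
      obtain ⟨⟨⟨hy1, hy2⟩, hy3⟩, hy4⟩ := hy
      rw [Finset.coe_filter, Set.mem_ofPred_eq]
      refine ⟨Finset.mem_univ _, Submodule.smul_mem _ _ ⟨hy1, hy4⟩, ?_, ?_⟩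
      · rw [QuadraticMap.map_smul, hy2, smul_zero]
      · rw [QuadraticMap.polar_smul_right, smul_eq_mul, inv_mul_cancel₀ hy3]
    · intro y hy y' hy' heq
      rw [Finset.coe_filter, Set.mem_ofPred_eq, mY] at hy hy'
      simp only at heq
      apply Pool.Agent.Helper53.PB.eq_of_rep_mem_span
      rw [Submodule.mem_span_singleton]
      refine ⟨QuadraticMap.polar Q r₁ y.rep * (QuadraticMap.polar Q r₁ y'.rep)⁻¹, ?_⟩
      rw [mul_smul, ← heq, smul_smul, mul_inv_cancel₀ hy.1.2, one_smul]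
  -- the bad points for A and B
  have hbA : ∀ (r s : V) (R : ℙ F V) (A : Finset (ℙ F V)), r = R.rep → R ∉ A →
      QuadraticMap.polar Q s r ≠ 0 → (∀ y ∈ Y, QuadraticMap.polar Q s y.rep = 0) →
      (Y.filter (fun y => ∃ P ∈ A, ∃ a b : F, P.rep = a • r + b • y.rep)).card ≤ A.card := by
    intro r s R A hr hRA hSR hYs
    have hch : ∀ y ∈ Y.filter (fun y => ∃ P ∈ A, ∃ a b : F, P.rep = a • r + b • y.rep),
        ∃ P ∈ A, ∃ a b : F, P.rep = a • r + b • y.rep := fun y hy => (Finset.mem_filter.1 hy).2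
    obtain ⟨g, hg⟩ : ∃ g : ℙ F V → ℙ F V,
        ∀ y ∈ Y.filter (fun y => ∃ P ∈ A, ∃ a b : F, P.rep = a • r + b • y.rep),
          g y ∈ A ∧ ∃ a b : F, (g y).rep = a • r + b • y.rep := by
      refine ⟨fun y => if h : ∃ P ∈ A, ∃ a b : F, P.rep = a • r + b • y.rep then
        Classical.choose h else R, ?_⟩
      intro y hy
      have h2 := hch y hy
      simp only [dif_pos h2]
      exact ⟨(Classical.choose_spec h2).1, (Classical.choose_spec h2).2⟩
    refine Finset.card_le_card_of_injOn g (fun y hy => (hg y hy).1) ?_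
    intro y hy y' hy' heq
    obtain ⟨hgA, a, b, hab⟩ := hg y hy
    obtain ⟨-, a', b', hab'⟩ := hg y' hy'
    have hyY : y ∈ Y := (Finset.mem_filter.1 hy).1
    have hyY' : y' ∈ Y := (Finset.mem_filter.1 hy').1
    rw [heq, hab'] at hab
    have h2 : QuadraticMap.polar Q s (a' • r + b' • y'.rep) =
        QuadraticMap.polar Q s (a • r + b • y.rep) := by rw [hab]
    rw [QuadraticMap.polar_add_right, QuadraticMap.polar_add_right,
      QuadraticMap.polar_smul_right, QuadraticMap.polar_smul_right,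
      QuadraticMap.polar_smul_right, QuadraticMap.polar_smul_right, hYs y hyY, hYs y' hyY',
      smul_zero, smul_zero, add_zero, add_zero, smul_eq_mul, smul_eq_mul] at h2
    have h3 : a' = a := mul_right_cancel₀ hSR h2
    rw [h3] at hab hab'
    have h4 : b' • y'.rep = b • y.rep := add_left_cancel hab
    have hb : b ≠ 0 := by
      intro hb0
      rw [hb0, zero_smul] at h4
      rw [h4, add_zero] at hab'
      apply hRA
      have h5 : g y' = R := by
        apply Pool.Agent.Helper53.PB.eq_of_rep_mem_span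
        rw [hab', ← hr]
        exact Submodule.smul_mem _ _ (Submodule.mem_span_singleton_self r)
      rw [← h5, ← heq]
      exact hgA
    apply Pool.Agent.Helper53.PB.eq_of_rep_mem_span
    rw [Submodule.mem_span_singleton]
    refine ⟨b⁻¹ * b', ?_⟩
    rw [mul_smul, h4, smul_smul, inv_mul_cancel₀ hb, one_smul]
  have hYr : ∀ y ∈ Y, QuadraticMap.polar Q r y.rep = 0 := fun y hy =>
    ((mL _).1 ((mY y).1 hy).1.1).1
  have hYs : ∀ y ∈ Y, QuadraticMap.polar Q s y.rep = 0 := fun y hy =>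
    ((mL _).1 ((mY y).1 hy).1.1).2
  have hA := hbA r s R A hr hRA hSR hYs
  have hB := hbA s r S B hs hSB hRS hYr
  obtain ⟨bA, hbA'⟩ : ∃ bA : Finset (ℙ F V), bA =
    Y.filter (fun y => ∃ P ∈ A, ∃ a b : F, P.rep = a • r + b • y.rep) := ⟨_, rfl⟩
  obtain ⟨bB, hbB'⟩ : ∃ bB : Finset (ℙ F V), bB =
    Y.filter (fun y => ∃ P ∈ B, ∃ a b : F, P.rep = a • s + b • y.rep) := ⟨_, rfl⟩
  obtain ⟨bZ, hbZ'⟩ : ∃ bZ : Finset (ℙ F V), bZ =
    Z.biUnion (fun z => Y.filter (fun y => QuadraticMap.polar Q z.rep y.rep = 0)) := ⟨_, rfl⟩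
  have hZc : bZ.card ≤ Z.card * (2 * Nat.card F ^ 4) := by
    rw [hbZ']
    exact Finset.card_biUnion_le_card_mul _ _ _ hbz
  have hlt : (bA ∪ bB ∪ bZ).card < Y.card := by
    have h2 := Finset.card_union_le (bA ∪ bB) bZ
    have h3 := Finset.card_union_le bA bB
    rw [← hbA'] at hA
    rw [← hbB'] at hB
    rw [hYc]
    have h4 : Z.card * (2 * Nat.card F ^ 4) = 2 * Z.card * Nat.card F ^ 4 := by ring
    omega
  obtain ⟨y, hyY, hyb⟩ := Finset.exists_mem_notMem_of_card_lt_card hlt
  rw [Finset.mem_union, Finset.mem_union, not_or, not_or] at hyb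
  obtain ⟨⟨hy1, hy2⟩, hy3⟩ := hyb
  refine ⟨y.rep, y.rep_nonzero, ((mY y).1 hyY).1.2, by rw [← hr]; exact hYr y hyY,
    by rw [← hs]; exact hYs y hyY, ?_, ?_, ?_⟩
  · intro z hz h0
    apply hy3
    rw [hbZ', Finset.mem_biUnion]
    exact ⟨z, hz, Finset.mem_filter.2 ⟨hyY, h0⟩⟩
  · intro P hP a b h0
    apply hy1
    rw [hbA', Finset.mem_filter]
    exact ⟨hyY, P, hP, a, b, by rw [hr]; exact h0⟩
  · intro P hP a b h0
    apply hy2
    rw [hbB', Finset.mem_filter]
    exact ⟨hyY, P, hP, a, b, by rw [hs]; exact h0⟩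

end Pool.Agent.Helper97.PQ
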